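import Pool.Agent.N929.AC.Stm

/-!
# Project AC (helper929), FEW (helper700): few slots on average are rare
-/

set_option autoImplicit false

namespace Pool.Agent.N700.AC

open Finset Filter Topology Pool.Agent.N929.EG Pool.Agent.N929.AC
open scoped Classical

noncomputable section

variable {α σ : Type}

/-- growth of the classes -/
theorem growth {Y : TS α σ} {μ : ℝ} {φ : ℕ → ℝ} (hG : Gr Y μ φ) {a θ' : ℝ} (ha : 0 < a)
    (hθ : Real.exp (-a) ≤ θ') : ∃ C : ℝ, 0 < C ∧ ∀ m : ℕ,
      ((Y.K m).card : ℝ) * Real.exp (-(2 * a * m)) ≤ C * (θ' * μ) ^ m := by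
  have hμ := hG.one
  have hθ0 : 0 < θ' := (Real.exp_pos _).trans_le hθ
  have hp : ∀ m : ℕ, 0 < (θ' * μ) ^ m := fun m => pow_pos (mul_pos hθ0 (by linarith)) m
  obtain ⟨m₁, hm₁⟩ := eventually_atTop.1 (hG.phi.lim.eventually_le_const ha)
  have hs : ∀ j ∈ range (m₁ + 2),
      0 ≤ ((Y.K j).card : ℝ) * Real.exp (-(2 * a * j)) / (θ' * μ) ^ j := fun j _ =>
    div_nonneg (mul_nonneg (Nat.cast_nonneg _) (Real.exp_pos _).le) (hp j).le
  refine ⟨1 + ∑ j ∈ range (m₁ + 2),
    ((Y.K j).card : ℝ) * Real.exp (-(2 * a * j)) / (θ' * μ) ^ j, ?_, fun m => ?_⟩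
  · have := Finset.sum_nonneg hs
    linarith
  · by_cases hm : m < m₁ + 2
    · have h1 := Finset.single_le_sum hs (Finset.mem_range.2 hm)
      rw [div_le_iff₀ (hp m)] at h1
      have h2 := hp m
      nlinarith
    · have hm2 : m₁ + 2 ≤ m := by omega
      have h1 := hG.up m m (by omega) (by omega)
      have h2 := hm₁ m (by omega)
      have hm0 : (0 : ℝ) < m := by exact_mod_cast (show 0 < m by omega)
      rw [div_le_iff₀ hm0] at h2
      have h3 : ((Y.K m).card : ℝ) * Real.exp (-(2 * a * m)) ≤ (θ' * μ) ^ m := by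
        calc ((Y.K m).card : ℝ) * Real.exp (-(2 * a * m))
            ≤ (μ ^ m * Real.exp (φ m)) * Real.exp (-(2 * a * m)) :=
              mul_le_mul_of_nonneg_right h1 (Real.exp_pos _).le
          _ = μ ^ m * Real.exp (φ m + -(2 * a * m)) := by rw [mul_assoc, ← Real.exp_add]
          _ ≤ μ ^ m * Real.exp ((m : ℝ) * (-a)) := by
              refine mul_le_mul_of_nonneg_left (Real.exp_le_exp.2 ?_) (by positivity)
              linarith
          _ = (Real.exp (-a) * μ) ^ m := by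
              rw [Real.exp_nat_mul, mul_pow, mul_comm]
          _ ≤ (θ' * μ) ^ m := by gcongr
      have h4 := Finset.sum_nonneg hs
      have h5 := hp m
      nlinarith

theorem few (hsel : S_SEL) : S_FEW := by
  intro α σ Y μ φ hG
  obtain ⟨κ, hκ, hS⟩ := hsel Y.d
  obtain ⟨M, θ, C', hM, hθ0, hθ1, hC', hbad⟩ := hG.pat
  have hμ := hG.one
  have hκ' : (0 : ℝ) < κ := by exact_mod_cast (show 0 < κ by omega)
  have hM' : (0 : ℝ) < M := by exact_mod_cast (show 0 < M by omega)
  obtain ⟨a, ha⟩ : ∃ a : ℝ, a = 1 / (2 * (M * κ)) := ⟨_, rfl⟩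
  have ha0 : 0 < a := by rw [ha]; positivity
  have ha2 : 2 * a * (M * κ) = 1 := by rw [ha]; field_simp
  obtain ⟨θ', hθ'⟩ : ∃ θ' : ℝ, θ' = max θ (Real.exp (-a)) := ⟨_, rfl⟩
  have h1 : θ ≤ θ' := by rw [hθ']; exact le_max_left _ _
  have h2 : Real.exp (-a) ≤ θ' := by rw [hθ']; exact le_max_right _ _
  have h3 : θ' < 1 := by
    rw [hθ']
    refine max_lt hθ1 ?_
    rw [Real.exp_lt_one_iff]
    linarith
  obtain ⟨C, hC, hgr⟩ := growth hG ha0 h2
  refine ⟨1 / (κ * M), θ', C' + C, by positivity, by linarith, h3, by linarith, fun N => ?_⟩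
  obtain ⟨ι, i1, i2, Λ, hΛ, hs⟩ := hS σ (Y.U N) Y.cf Y.cf_symm (Y.deg N)
  refine ⟨ι, i1, i2, Λ, fun i => (hΛ i).2, fun m hm => ?_⟩
  have hι : (0 : ℝ) ≤ Fintype.card ι := Nat.cast_nonneg _
  have e1 : ∀ i, (((Y.K m).filter (fun w => ((Sl Y (Λ i) w).card : ℝ) < 1 / (κ * M) * m)).card : ℝ) =
      ∑ w ∈ Y.K m, if ((Sl Y (Λ i) w).card : ℝ) < 1 / (κ * M) * m then (1 : ℝ) else 0 := by
    intro i
    rw [Finset.sum_boole]
  rw [Finset.sum_congr rfl fun i _ => e1 i, Finset.sum_comm]
  have hw : ∀ w ∈ Y.K m,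
      (∑ i, if ((Sl Y (Λ i) w).card : ℝ) < 1 / (κ * M) * m then (1 : ℝ) else 0) ≤
        (if w ∈ bad Y M m then (1 : ℝ) else 0) * Fintype.card ι +
          Real.exp (-(2 * a * m)) * Fintype.card ι := by
    intro w hwK
    rw [Finset.sum_boole]
    by_cases hb : w ∈ bad Y M m
    · rw [if_pos hb, one_mul]
      have h4 : ((univ.filter fun i => ((Sl Y (Λ i) w).card : ℝ) < 1 / (κ * M) * m).card : ℝ) ≤
          Fintype.card ι := by
        exact_mod_cast Finset.card_le_univ _
      have h5 : 0 ≤ Real.exp (-(2 * a * m)) * Fintype.card ι :=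
        mul_nonneg (Real.exp_pos _).le hι
      linarith
    · rw [if_neg hb, zero_mul, zero_add]
      have h4 : m < M * (Y.S w).card := by
        by_contra hcon
        apply hb
        unfold bad
        rw [Finset.mem_filter]
        exact ⟨hwK, Or.inl (by omega)⟩
      have h4' : (m : ℝ) < M * (Y.S w).card := by exact_mod_cast h4
      have h5 := hs (Y.S w) (Y.S_U m N w hwK hm).1
      have h6 : (univ.filter fun i => ((Sl Y (Λ i) w).card : ℝ) < 1 / (κ * M) * m) ⊆
          univ.filter (fun i => κ * (Λ i ∩ Y.S w).card < (Y.S w).card) := by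
        intro i hi
        rw [Finset.mem_filter] at hi ⊢
        refine ⟨Finset.mem_univ _, ?_⟩
        have h7 : Λ i ∩ Y.S w ⊆ Sl Y (Λ i) w := by
          intro q hq
          rw [Finset.mem_inter] at hq
          unfold Sl
          rw [Finset.mem_filter]
          exact ⟨hq.1, Or.inl hq.2⟩
        have h8 : ((Λ i ∩ Y.S w).card : ℝ) ≤ (Sl Y (Λ i) w).card := by
          exact_mod_cast Finset.card_le_card h7
        have h9 : ((Λ i ∩ Y.S w).card : ℝ) < 1 / (κ * M) * m := lt_of_le_of_lt h8 hi.2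
        have h10 : (κ : ℝ) * (Λ i ∩ Y.S w).card < (Y.S w).card := by
          have h11 : (κ : ℝ) * (Λ i ∩ Y.S w).card < κ * (1 / (κ * M) * m) :=
            mul_lt_mul_of_pos_left h9 hκ'
          have h12 : (κ : ℝ) * (1 / (κ * M) * m) = m / M := by
            field_simp
          rw [h12] at h11
          have h13 : (m : ℝ) / M < (Y.S w).card := by
            rw [div_lt_iff₀ hM']
            linarith
          linarith
        exact_mod_cast h10
      have h7 : ((univ.filter fun i => ((Sl Y (Λ i) w).card : ℝ) < 1 / (κ * M) * m).card : ℝ) ≤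
          ((univ.filter (fun i => κ * (Λ i ∩ Y.S w).card < (Y.S w).card)).card : ℝ) := by
        exact_mod_cast Finset.card_le_card h6
      refine h7.trans (h5.trans ?_)
      refine mul_le_mul_of_nonneg_right (Real.exp_le_exp.2 ?_) hι
      rw [neg_le_neg_iff, le_div_iff₀ hκ']
      have h8 : 2 * a * m * κ ≤ 2 * a * (M * (Y.S w).card) * κ := by gcongr
      have h9 : 2 * a * (M * (Y.S w).card) * κ = (2 * a * (M * κ)) * (Y.S w).card := by ring
      rw [h9, ha2, one_mul] at h8
      exact h8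
  refine (Finset.sum_le_sum hw).trans ?_
  rw [Finset.sum_add_distrib, ← Finset.sum_mul, Finset.sum_const, nsmul_eq_mul]
  have h4 : (∑ w ∈ Y.K m, if w ∈ bad Y M m then (1 : ℝ) else 0) ≤ C' * (θ' * μ) ^ m := by
    rw [Finset.sum_boole]
    have h5 : ((Y.K m).filter fun w => w ∈ bad Y M m) ⊆ bad Y M m := fun w hw' =>
      (Finset.mem_filter.1 hw').2
    have h6 : (((Y.K m).filter fun w => w ∈ bad Y M m).card : ℝ) ≤ (bad Y M m).card := by
      exact_mod_cast Finset.card_le_card h5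
    refine h6.trans ((hbad m).trans ?_)
    gcongr
  have h5 := hgr m
  have h6 := mul_le_mul_of_nonneg_right h4 hι
  have h7 := mul_le_mul_of_nonneg_right h5 hι
  calc (∑ w ∈ Y.K m, if w ∈ bad Y M m then (1 : ℝ) else 0) * Fintype.card ι +
        ((Y.K m).card : ℝ) * (Real.exp (-(2 * a * m)) * Fintype.card ι)
      = (∑ w ∈ Y.K m, if w ∈ bad Y M m then (1 : ℝ) else 0) * Fintype.card ι +
        ((Y.K m).card : ℝ) * Real.exp (-(2 * a * m)) * Fintype.card ι := by ring
    _ ≤ C' * (θ' * μ) ^ m * Fintype.card ι + C * (θ' * μ) ^ m * Fintype.card ι :=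
        add_le_add h6 h7
    _ = (C' + C) * (θ' * μ) ^ m * Fintype.card ι := by ring

end

end Pool.Agent.N700.AC
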